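import Pool.Agent.TH794.QE.FinC
import Pool.Agent.W193.BK.ES
import Pool.Agent.W240.BK.Var
import Pool.Agent.W540.BK.Fac
import Pool.Agent.W240.BK.Fluct
import Pool.Agent.W918.BK.Osc
import Pool.Agent.W240.BK.Two
import Pool.Agent.W465.BK.QB
import Pool.Agent.W475.BK.Low
import Pool.Agent.W975.BK.Sup
import Pool.Agent.W790.BK.ADM
import Pool.Agent.W475.BK.Inv
import Pool.Agent.W261.BK.Third

/-!
# Weak disorder, `d ≥ 3`: the mean square displacement up to and beyond the kinetic scale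

`H = -Δ + λ V_ω` on `ℤ^d`, `d ≥ 3`, `ω_x` iid with any law on `[-b, b]` of mean `M` and variance
`V ≥ v > 0` (no regularity is needed), `λ ≤ λ₀(d, b, v)`. With probability at least
`1 - exp(-λ^{-1/102})` the following holds simultaneously for

* all sites `|a| ≤ exp(λ^{-1/102})`,
* all energies `e` with `|2d + λM - e| ≤ 3d`, in particular the whole spectrum,
* all scales `λ^{2 + 1/41} ≤ η ≤ λ² V`.

Let `u = (H - e - iη)⁻¹ δ_a` and `E = 2d + λM - e`. Then, for every coordinate `j`,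
`η² λ² V ∑_x (x_j - a_j)² |u(x)|² = 2 Im g₁(E) / (η / (λ² V) + Im g₀(E)) + O(λ^{1/301})`.

Here `Im g₀ / π` is the free density of states and `4 Im g₁ / π` the free density of the square of the
velocity. At the kinetic scale `η = λ² V` and above it the formula describes the crossover from
ballistic motion, and for `η` small against `λ² V` it is the law of a diffusion, with the constant of
the linear Boltzmann equation. The law holds for one fixed realisation of the disorder and at every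
energy, also at the singularities of the free density of states and at the band edges; inside the
band the limit is not zero.
-/

set_option autoImplicit false

open scoped BigOperators ENNReal Topology
open MeasureTheory Filter

namespace Pool.Agent.H44T.MSD

/-- `(H u)(x) = -∑_{|n|=1} (u(x+n) - u(x)) + λ ω_x u(x)` on `ℤ^d` -/
noncomputable def H {d : ℕ} (lam : ℝ) (ω : (Fin d → ℤ) → ℝ) (u : (Fin d → ℤ) → ℂ)
    (x : Fin d → ℤ) : ℂ :=
  -∑ i : Fin d, ((u (x + Pi.single i 1) - u x) + (u (x - Pi.single i 1) - u x)) +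
    ((lam * ω x : ℝ) : ℂ) * u x

/-- `u = (H - e - iη)⁻¹ δ_a` in `ℓ²(ℤ^d)` -/
structure IsGreen {d : ℕ} (lam : ℝ) (ω : (Fin d → ℤ) → ℝ) (a : Fin d → ℤ) (e η : ℝ)
    (u : (Fin d → ℤ) → ℂ) : Prop where
  sq : Summable fun x => ‖u x‖ ^ 2
  eq : ∀ x, H lam ω u x - ((e : ℂ) + (η : ℂ) * Complex.I) * u x = if x = a then 1 else 0

/-- `∫_0^1 exp(-is · 2 cos 2πx) dx` -/
noncomputable def p0 (s : ℝ) : ℂ :=
  ∫ x in (0 : ℝ)..1, Complex.exp (Complex.I * ((-s * (2 * Real.cos (2 * Real.pi * x)) : ℝ) : ℂ))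

/-- `∫_0^1 sin²(2πx) exp(-is · 2 cos 2πx) dx` -/
noncomputable def p1 (s : ℝ) : ℂ :=
  ∫ x in (0 : ℝ)..1, ((Real.sin (2 * Real.pi * x) ^ 2 : ℝ) : ℂ) *
    Complex.exp (Complex.I * ((-s * (2 * Real.cos (2 * Real.pi * x)) : ℝ) : ℂ))

/-- the boundary value `∫_{[0,1]^d} (∑ 2 cos 2πk_i - E - i0)⁻¹ dk` -/
noncomputable def g0 (d : ℕ) (E : ℝ) : ℂ :=
  Complex.I * ∫ s in Set.Ioi (0 : ℝ), p0 s ^ d * Complex.exp (Complex.I * (E : ℂ) * s)

/-- the boundary value `∫_{[0,1]^d} sin²(2πk_1) (∑ 2 cos 2πk_i - E - i0)⁻¹ dk` -/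
noncomputable def g1 (d : ℕ) (E : ℝ) : ℂ :=
  Complex.I * ∫ s in Set.Ioi (0 : ℝ), p1 s * p0 s ^ (d - 1) * Complex.exp (Complex.I * (E : ℂ) * s)

theorem g0_eq (d : ℕ) (E : ℝ) : g0 d E = Pool.Agent.TH794.QD.GF (Pool.Agent.TH794.QD.F0 d) E := rfl

theorem g1_eq (d : ℕ) (E : ℝ) : g1 d E = Pool.Agent.TH794.QD.GF (Pool.Agent.TH794.QD.F1 d) E := rfl

/-- removing the mean of the potential -/
theorem green_shift {d : ℕ} (lam M : ℝ) (ω : (Fin d → ℤ) → ℝ) (a : Fin d → ℤ) (e η : ℝ)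
    (u : (Fin d → ℤ) → ℂ) : IsGreen lam ω a e η u ↔
      Pool.Agent.TH794.QE.Rs d (fun x => 2 * d + lam * (ω x - M)) a (e - lam * M) η u := by
  have h : ∀ x, H lam ω u x - ((e : ℂ) + (η : ℂ) * Complex.I) * u x =
      -Pool.Agent.W788.LD.Spec.S u x + ((2 * d + lam * (ω x - M) : ℝ) : ℂ) * u x -
        (((e - lam * M : ℝ) : ℂ) + (η : ℂ) * Complex.I) * u x := by
    intro x
    unfold H Pool.Agent.W788.LD.Spec.S
    have h2 : ∑ i : Fin d, ((u (x + Pi.single i 1) - u x) + (u (x - Pi.single i 1) - u x)) =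
        ∑ i : Fin d, (u (x + Pi.single i 1) + u (x - Pi.single i 1)) - 2 * (d : ℂ) * u x := by
      rw [Finset.sum_add_distrib, Finset.sum_sub_distrib, Finset.sum_sub_distrib,
        Finset.sum_add_distrib]
      simp
      ring
    rw [h2]
    push_cast
    ring
  constructor
  · intro hu
    refine ⟨hu.sq, fun x => ?_⟩
    rw [← h]
    exact hu.eq x
  · intro hu
    refine ⟨hu.sq, fun x => ?_⟩
    rw [h]
    exact hu.eq x

/-- comparison of powers of `2 b λ` and `λ` -/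
theorem pow_cmp (C p q : ℝ) (hC : 0 < C) (hpq : q < p) :
    ∃ l0 : ℝ, 0 < l0 ∧ l0 ≤ 1 ∧ ∀ lam : ℝ, 0 < lam → lam ≤ l0 → (C * lam) ^ p ≤ lam ^ q := by
  obtain ⟨r, hr⟩ : ∃ r, r = p - q := ⟨_, rfl⟩
  have hr0 : 0 < r := by rw [hr]; linarith
  obtain ⟨l0, hl⟩ : ∃ l0 : ℝ, l0 = min 1 ((C ^ p)⁻¹ ^ (1 / r)) := ⟨_, rfl⟩
  have hCp : 0 < C ^ p := Real.rpow_pos_of_pos hC p
  refine ⟨l0, ?_, by rw [hl]; exact min_le_left _ _, fun lam h0 h1 => ?_⟩
  · rw [hl]
    exact lt_min one_pos (Real.rpow_pos_of_pos (inv_pos.2 hCp) _)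
  · rw [Real.mul_rpow hC.le h0.le]
    have h2 : lam ≤ (C ^ p)⁻¹ ^ (1 / r) := h1.trans (by rw [hl]; exact min_le_right _ _)
    have h3 : lam ^ r ≤ (C ^ p)⁻¹ := by
      have h4 := Real.rpow_le_rpow h0.le h2 hr0.le
      rwa [← Real.rpow_mul (inv_pos.2 hCp).le, one_div, inv_mul_cancel₀ hr0.ne',
        Real.rpow_one] at h4
    have h5 : lam ^ p = lam ^ r * lam ^ q := by
      rw [← Real.rpow_add h0]
      congr 1
      rw [hr]
      ring
    rw [h5, ← mul_assoc]
    have h6 : C ^ p * lam ^ r ≤ 1 := by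
      calc C ^ p * lam ^ r ≤ C ^ p * (C ^ p)⁻¹ := by gcongr
        _ = 1 := mul_inv_cancel₀ hCp.ne'
    calc C ^ p * lam ^ r * lam ^ q ≤ 1 * lam ^ q := by
          have := Real.rpow_nonneg h0.le q
          gcongr
      _ = lam ^ q := one_mul _

/-- **Theorem.** -/
theorem result (d : ℕ) (hd : 3 ≤ d) :
    (∀ κ : ℝ, 0 < κ → κ ≤ 1 → ∃ m : ℝ, 0 < m ∧ ∀ E : ℝ, |E| ≤ 2 * d - κ →
      m ≤ (g1 d E).im ∧ (g1 d E).im ≤ (g0 d E).im) ∧
    ∀ b v : ℝ, 0 < b → 0 < v → ∃ lam0 : ℝ, 0 < lam0 ∧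
      ∀ (μ : Measure ℝ) [IsProbabilityMeasure μ], (∀ᵐ s ∂μ, |s| ≤ b) →
      ∀ M V : ℝ, ∫ s, s ∂μ = M → ∫ s, (s - M) ^ 2 ∂μ = V → v ≤ V →
      ∀ lam : ℝ, 0 < lam → lam ≤ lam0 →
      ∃ G : Set ((Fin d → ℤ) → ℝ), MeasurableSet G ∧
        1 - Real.exp (-lam ^ (-(1 / 102) : ℝ)) ≤
          (Measure.infinitePi fun _ : Fin d → ℤ => μ).real G ∧
        ∀ ω ∈ G, ∀ a : Fin d → ℤ, ‖a‖ ≤ Real.exp (lam ^ (-(1 / 102) : ℝ)) →
          ∀ e : ℝ, |2 * d + lam * M - e| ≤ 3 * d →
          ∀ η : ℝ, lam ^ (2 + 1 / 41 : ℝ) ≤ η → η ≤ lam ^ 2 * V →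
            (∃ u, IsGreen lam ω a e η u) ∧
            ∀ u, IsGreen lam ω a e η u → ∀ j : Fin d,
              (Summable fun x : Fin d → ℤ => ((x j : ℝ) - a j) ^ 2 * ‖u x‖ ^ 2) ∧
              |η ^ 2 * (lam ^ 2 * V) * ∑' x : Fin d → ℤ, ((x j : ℝ) - a j) ^ 2 * ‖u x‖ ^ 2 -
                2 * ((g1 d (2 * d + lam * M - e)).im /
                  (η / (lam ^ 2 * V) + (g0 d (2 * d + lam * M - e)).im))| ≤
                lam ^ (1 / 301 : ℝ) := by
  have hd2 : 2 ≤ d := by omega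
  have hO := Pool.Agent.W918.BK.Osc.osc
  obtain ⟨γ0, γ1, h⟩ := Pool.Agent.TH794.QE.finF Pool.Agent.W193.BK.ES.es
    (Pool.Agent.W261.BK.third Pool.Agent.W540.BK.fac)
    (Pool.Agent.W240.BK.fluct (Pool.Agent.W240.BK.var Pool.Agent.W193.BK.ES.es))
    Pool.Agent.W475.BK.inv Pool.Agent.W975.BK.sup
    (Pool.Agent.W465.BK.qb (Pool.Agent.W240.BK.two Pool.Agent.W918.BK.Osc.osc))
    Pool.Agent.W475.BK.low Pool.Agent.W790.BK.ADM.adm Pool.Agent.W540.BK.fac
    hO d hd2
  have hreg : ∀ κ E : ℝ, |E| ≤ 3 * d → Pool.Agent.TH794.QE.RegE d κ E :=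
    fun κ E hE => Or.inr ⟨hd, hE⟩
  have hd0 : (0 : ℝ) ≤ d := Nat.cast_nonneg d
  have e0 : ∀ E : ℝ, |E| ≤ 3 * d → γ0 E = g0 d E := by
    intro E hE
    exact tendsto_nhds_unique ((h 1 one_pos le_rfl).1 E (hreg 1 E hE)).1
      (Pool.Agent.TH794.QE.lim3 _ _ (Pool.Agent.TH794.QD.hol0 hO d hd) E)
  have e1 : ∀ E : ℝ, |E| ≤ 3 * d → γ1 E = g1 d E := by
    intro E hE
    exact tendsto_nhds_unique ((h 1 one_pos le_rfl).1 E (hreg 1 E hE)).2.1
      (Pool.Agent.TH794.QE.lim3 _ _ (Pool.Agent.TH794.QD.hol1 hO d hd) E)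
  refine ⟨fun κ hκ hκ1 => ?_, fun b v hb hv => ?_⟩
  · obtain ⟨h1, ⟨m, hm, h2⟩, -⟩ := h κ hκ hκ1
    refine ⟨m, hm, fun E hE => ?_⟩
    have hE3 : |E| ≤ 3 * d := by linarith
    rw [← e0 E hE3, ← e1 E hE3]
    exact ⟨h2 E (hreg κ E hE3) hE, (h1 E (hreg κ E hE3)).2.2.2⟩
  · obtain ⟨-, -, h3⟩ := h 1 one_pos le_rfl
    obtain ⟨c0, hc0, h4⟩ := h3 (v / (2 * b) ^ 2) (by positivity)
    have hC : 0 < 2 * b := by positivity
    obtain ⟨l1, hl1, hl11, k1⟩ := pow_cmp (2 * b) (81 / 40) (2 + 1 / 41) hC (by norm_num)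
    obtain ⟨l2, hl2, hl21, k2⟩ := pow_cmp (2 * b) (1 / 300) (1 / 301) hC (by norm_num)
    obtain ⟨l3, hl3, hl31, k3⟩ := pow_cmp (2 * b) (1 / 101) (1 / 102) hC (by norm_num)
    refine ⟨min (c0 / (2 * b)) (min l1 (min l2 l3)), by positivity, ?_⟩
    intro μ hμ hμb M V hM hV hvV lam hlam hlam0
    have hl0 : lam ≤ c0 / (2 * b) := hlam0.trans (min_le_left _ _)
    have hl1' : lam ≤ l1 := hlam0.trans ((min_le_right _ _).trans (min_le_left _ _))
    have hl2' : lam ≤ l2 := hlam0.trans ((min_le_right _ _).trans ((min_le_right _ _).trans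
      (min_le_left _ _)))
    have hl3' : lam ≤ l3 := hlam0.trans ((min_le_right _ _).trans ((min_le_right _ _).trans
      (min_le_right _ _)))
    obtain ⟨c, hc⟩ : ∃ c, c = 2 * b * lam := ⟨_, rfl⟩
    have hcpos : 0 < c := by rw [hc]; positivity
    have hcc0 : c ≤ c0 := by
      rw [hc]
      rw [le_div_iff₀ hC] at hl0
      linarith
    have hV0 : 0 < V := hv.trans_le hvV
    -- the mean is bounded
    have hMb : |M| ≤ b := by
      rw [← hM]
      have h5 : ‖∫ s, s ∂μ‖ ≤ b * μ.real Set.univ := by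
        refine norm_integral_le_of_norm_le_const ?_
        filter_upwards [hμb] with s hs
        exact hs
      simpa using h5
    -- the new law
    obtain ⟨T, hT⟩ : ∃ T : ℝ → ℝ, T = fun s => lam * (s - M) := ⟨_, rfl⟩
    have hTm : Measurable T := by rw [hT]; fun_prop
    have hμ' : IsProbabilityMeasure (μ.map T) := Measure.isProbabilityMeasure_map hTm.aemeasurable
    have hb' : ∀ᵐ s ∂(μ.map T), |s| ≤ c := by
      rw [ae_map_iff hTm.aemeasurable (measurableSet_le (by fun_prop) measurable_const)]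
      filter_upwards [hμb] with s hs
      rw [hT, hc]
      simp only
      rw [abs_mul, abs_of_pos hlam]
      have h6 : |s - M| ≤ 2 * b := by
        have := abs_sub s M
        linarith
      nlinarith
    have hint : Integrable (fun s : ℝ => s) μ :=
      Integrable.of_bound (by fun_prop) b (by
        filter_upwards [hμb] with s hs
        exact hs)
    have hm' : ∫ s, s ∂(μ.map T) = 0 := by
      rw [integral_map hTm.aemeasurable (by fun_prop), hT]
      simp only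
      rw [integral_const_mul, integral_sub hint (integrable_const _), hM]
      simp
    have hs' : ∫ s, s ^ 2 ∂(μ.map T) = lam ^ 2 * V := by
      rw [integral_map hTm.aemeasurable (by fun_prop), hT]
      simp only [mul_pow]
      rw [integral_const_mul, hV]
    have hvc : v / (2 * b) ^ 2 * c ^ 2 ≤ lam ^ 2 * V := by
      have : v / (2 * b) ^ 2 * c ^ 2 = lam ^ 2 * v := by
        rw [hc, mul_pow]
        field_simp
      rw [this]
      gcongr
    obtain ⟨G, hG, hP, hL⟩ := h4 c hcpos hcc0 (μ.map T) hμ' hb' hm' (lam ^ 2 * V) hs' hvc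
    have hTT : Measurable fun (ω : (Fin d → ℤ) → ℝ) x => T (ω x) := by fun_prop
    refine ⟨(fun (ω : (Fin d → ℤ) → ℝ) x => T (ω x)) ⁻¹' G, hTT hG, ?_, ?_⟩
    · have h7 : (Measure.infinitePi fun _ : Fin d → ℤ => μ).real
          ((fun (ω : (Fin d → ℤ) → ℝ) x => T (ω x)) ⁻¹' G) =
          (Measure.infinitePi fun _ : Fin d → ℤ => μ.map T).real G := by
        have h8 := Measure.infinitePi_map_pi (μ := fun _ : Fin d → ℤ => μ)
          (f := fun _ => T) fun _ => hTm
        rw [Measure.real, Measure.real, ← h8, Measure.map_apply hTT hG]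
      rw [h7]
      refine le_trans ?_ hP
      have h9 : lam ^ (-(1 / 102) : ℝ) ≤ c ^ (-(1 / 101) : ℝ) := by
        rw [Real.rpow_neg hlam.le, Real.rpow_neg hcpos.le]
        have h10 := k3 lam hlam hl3'
        rw [← hc] at h10
        exact inv_anti₀ (Real.rpow_pos_of_pos hcpos _) h10
      have h11 := Real.exp_le_exp.2 (neg_le_neg h9)
      linarith
    · intro ω hω a ha e he η hη1 hη2
      obtain ⟨hωb, hL'⟩ := hL _ hω
      have hη0 : 0 < η := lt_of_lt_of_le (Real.rpow_pos_of_pos hlam _) hη1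
      have ha' : ‖a‖ ≤ Real.exp (c ^ (-(1 / 101) : ℝ)) := by
        refine ha.trans (Real.exp_le_exp.2 ?_)
        rw [Real.rpow_neg hlam.le, Real.rpow_neg hcpos.le]
        have h10 := k3 lam hlam hl3'
        rw [← hc] at h10
        exact inv_anti₀ (Real.rpow_pos_of_pos hcpos _) h10
      have hE : 2 * (d : ℝ) - (e - lam * M) = 2 * d + lam * M - e := by ring
      refine ⟨?_, fun u hu j => ?_⟩
      · obtain ⟨u, hu⟩ := Pool.Agent.TH794.QE.rs_exists
          (fun x => 2 * (d : ℝ) + lam * (ω x - M)) (2 * d + c) (fun x => by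
            refine (abs_add_le _ _).trans ?_
            rw [abs_of_nonneg (by positivity : (0 : ℝ) ≤ 2 * d)]
            have h12 : |lam * (ω x - M)| ≤ c := by
              have := hωb x
              rw [hT] at this
              exact this
            linarith) a (e - lam * M) η hη0
        exact ⟨u, (green_shift lam M ω a e η u).2 hu⟩
      · have hu' := (green_shift lam M ω a e η u).1 hu
        have hη3 : c ^ (81 / 40 : ℝ) ≤ η := by
          have h13 := k1 lam hlam hl1'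
          rw [← hc] at h13
          exact h13.trans hη1
        obtain ⟨h14, h15⟩ := hL' a ha' (e - lam * M) (by
          rw [hE]
          exact hreg 1 _ he) η hη3 hη2 u (by
            have : (fun x => 2 * (d : ℝ) + lam * (ω x - M)) =
                fun x => 2 * (d : ℝ) + (fun (x : Fin d → ℤ) => T (ω x)) x := by
              rw [hT]
            rw [this] at hu'
            exact hu') j
        refine ⟨h14, ?_⟩
        rw [hE] at h15
        unfold Pool.Agent.TH794.QE.Pg Pool.Agent.TH794.QE.QM at h15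
        rw [e0 _ he, e1 _ he] at h15
        refine h15.trans ?_
        have h16 := k2 lam hlam hl2'
        rw [← hc] at h16
        exact h16

end Pool.Agent.H44T.MSD
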